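import Pool.Agent.Q161.ESN.Stm2

/-!
# Project ESN (helper161), job EVX: equivariant functions (adapted from `Pool/Agent/Q224/ESM/EVX.lean`)
-/

set_option autoImplicit false
set_option linter.unusedSectionVars false

namespace Pool.Agent.Q190.ESN

open NumberField IsDedekindDomain Finset
open Pool.Agent.Q161.ESN

section ev

variable {F : Type} [Field F] [NumberField F] {K : Type} [Field K] [NumberField K] [Algebra F K]
  {V : Type} [AddCommGroup V]
  [DistribMulAction (K ≃ₐ[F] K) V] {ι : Type} {Lf : ι → Type} [∀ i, Field (Lf i)]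
  [∀ i, NumberField (Lf i)] {em : (i : ι) → Lf i →+* K} {rp : ι → V}

/-- the index of the orbit of `t` -/
noncomputable def ix (hR : Rp F Lf em rp) (t : V) : ι := (hR.orb t).choose

theorem ix_spec (hR : Rp F Lf em rp) (t : V) : ∃ g : K ≃ₐ[F] K, g • rp (ix hR t) = t :=
  (hR.orb t).choose_spec.1

theorem ix_uniq (hR : Rp F Lf em rp) (t : V) (i : ι) (h : ∃ g : K ≃ₐ[F] K, g • rp i = t) :
    i = ix hR t :=
  (hR.orb t).choose_spec.2 i h

/-- an element which moves the representative to `t` -/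
noncomputable def gt (hR : Rp F Lf em rp) (t : V) : K ≃ₐ[F] K := (ix_spec hR t).choose

theorem gt_spec (hR : Rp F Lf em rp) (t : V) : gt hR t • rp (ix hR t) = t :=
  (ix_spec hR t).choose_spec

/-- the isomorphism -/
noncomputable def evm (hR : Rp F Lf em rp) : ((i : ι) → 𝓞 (Lf i)) →+* (V → 𝓞 K) :=
  RingHom.pi fun t => (RingOfIntegers.mapRingHom ((gt hR t : K ≃ₐ[F] K) : K →+* K)).comp
    ((RingOfIntegers.mapRingHom (em (ix hR t))).comp (Pi.evalRingHom _ (ix hR t)))

theorem evm_apply (hR : Rp F Lf em rp) (x : (i : ι) → 𝓞 (Lf i)) (t : V) :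
    ((evm hR x t : 𝓞 K) : K) = gt hR t (em (ix hR t) (x (ix hR t) : Lf (ix hR t))) := rfl

theorem evm_eq (hR : Rp F Lf em rp) (x : (i : ι) → 𝓞 (Lf i)) (i : ι) (g : K ≃ₐ[F] K) :
    ((evm hR x (g • rp i) : 𝓞 K) : K) = g (em i (x i : Lf i)) := by
  obtain ⟨t, ht⟩ : ∃ t, t = g • rp i := ⟨_, rfl⟩
  rw [← ht]
  have hi : i = ix hR t := ix_uniq hR t i ⟨g, ht.symm⟩
  subst hi
  rw [evm_apply]
  have h1 := gt_spec hR t
  have h2 : (g⁻¹ * gt hR t) • rp (ix hR t) = rp (ix hR t) := by
    rw [mul_smul, h1]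
    conv_lhs => rw [ht]
    rw [inv_smul_smul]
  have h3 := (hR.fix (ix hR t) (em (ix hR t) (x (ix hR t) : Lf (ix hR t)))).2 ⟨_, rfl⟩ _ h2
  rw [AlgEquiv.mul_apply] at h3
  have h4 := congrArg g h3
  rw [← AlgEquiv.mul_apply g g⁻¹, mul_inv_cancel, AlgEquiv.one_apply] at h4
  exact h4

theorem isEv (hR : Rp F Lf em rp) : IsEv F em rp (evm hR) where
  eqv x g t := by
    have h1 := gt_spec hR t
    have h2 := evm_eq hR x (ix hR t) (gt hR t)
    have h3 := evm_eq hR x (ix hR t) (g * gt hR t)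
    rw [h1] at h2
    rw [mul_smul, h1, AlgEquiv.mul_apply] at h3
    rw [h3, h2]
  val x i := by
    have h1 := evm_eq hR x i 1
    rwa [one_smul, AlgEquiv.one_apply] at h1
  sur z hz := by
    have h1 : ∀ i, ∃ y : 𝓞 (Lf i), em i (y : Lf i) = (z (rp i) : K) := by
      intro i
      obtain ⟨y, hy⟩ := (hR.fix i (z (rp i) : K)).1 (fun g hg => by
        have := hz g (rp i)
        rw [hg] at this
        exact this.symm)
      have h2 : IsIntegral ℤ y := by
        have h3 : IsIntegral ℤ (em i y) := by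
          rw [hy]
          exact (z (rp i)).2
        exact (isIntegral_algHom_iff ((em i).toIntAlgHom) (em i).injective).1 h3
      exact ⟨⟨y, h2⟩, hy⟩
    choose x hx using h1
    refine ⟨x, ?_⟩
    funext t
    have h2 := gt_spec hR t
    have h3 := evm_eq hR x (ix hR t) (gt hR t)
    have h4 := hz (gt hR t) (rp (ix hR t))
    rw [h2] at h3 h4
    rw [hx] at h3
    exact RingOfIntegers.ext (h3.trans h4.symm)

end ev

theorem finrank_eq {F : Type} [Field F] [NumberField F] {K : Type} [Field K] [NumberField K]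
    [Algebra F K] [IsGalois ℚ K] {V : Type} [AddCommGroup V]
    [DistribMulAction (K ≃ₐ[F] K) V] {ι : Type} {Lf : ι → Type} [∀ i, Field (Lf i)]
    [∀ i, NumberField (Lf i)] {em : (i : ι) → Lf i →+* K} {rp : ι → V} (hR : Rp F Lf em rp) (i : ι) :
    Module.finrank ℚ (Lf i) =
      Module.finrank ℚ F * {t : V | ∃ g : K ≃ₐ[F] K, g • rp i = t}.ncard := by
  have : IsGalois F K := IsGalois.tower_top_of_isGalois ℚ F K
  obtain ⟨f, hf⟩ : ∃ f : Lf i →ₐ[ℚ] K, ∀ y, f y = em i y := ⟨(em i).toRatAlgHom, fun y => rfl⟩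
  obtain ⟨H, hH⟩ : ∃ H : Subgroup (K ≃ₐ[F] K), H = MulAction.stabilizer (K ≃ₐ[F] K) (rp i) := ⟨_, rfl⟩
  have h1 : f.fieldRange = (IntermediateField.fixedField H).restrictScalars ℚ := by
    ext x
    rw [AlgHom.mem_fieldRange, IntermediateField.mem_restrictScalars,
      IntermediateField.mem_fixedField_iff]
    rw [hH]
    constructor
    · rintro ⟨y, rfl⟩ g hg
      rw [hf]
      exact (hR.fix i (em i y)).2 ⟨y, rfl⟩ g hg
    · intro h
      obtain ⟨y, hy⟩ := (hR.fix i x).1 (fun g hg => h g hg)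
      exact ⟨y, by rw [hf]; exact hy⟩
  have h2 : Module.finrank ℚ (Lf i) = Module.finrank ℚ f.fieldRange :=
    (AlgEquiv.ofInjectiveField f).toLinearEquiv.finrank_eq
  have h3 := IntermediateField.finrank_eq_fixingSubgroup_index K (IntermediateField.fixedField H)
  rw [IntermediateField.fixingSubgroup_fixedField] at h3
  have h4 : Module.finrank ℚ ((IntermediateField.fixedField H).restrictScalars ℚ :
      IntermediateField ℚ K) = Module.finrank ℚ F *
        Module.finrank F (IntermediateField.fixedField H : IntermediateField F K) :=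
    (Module.finrank_mul_finrank ℚ F (IntermediateField.fixedField H : IntermediateField F K)).symm
  rw [h2, h1, h4, h3, hH, MulAction.index_stabilizer]
  congr 1

theorem evx : S_EVX := by
  intro F K _ _ _ _ _ _ V _ _ _ ι Lf _ _ em rp hR
  exact ⟨⟨evm hR, isEv hR⟩, fun i => finrank_eq hR i⟩

end Pool.Agent.Q190.ESN
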