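import Pool.Agent.Q161.ESN.Stm3
import Pool.Agent.Q121.ESG.SEMF
import Pool.Agent.Q166.ESG.SUMG

/-!
# Project ESN (helper161), job SEM3: semisimplicity for cubic extensions
-/

set_option autoImplicit false

namespace Pool.Agent.Q190.ESN

open Finset
open Pool.Agent.Q161.ESN
open Pool.Agent.Q121.ESG (simple3)

theorem exists_autF {F K M : Type} [Field F] [NumberField F] [Field K] [NumberField K] [Algebra F K]
    [IsGalois ℚ K] [Field M] [Algebra F M] (σ τ : M →ₐ[F] K) :
    ∃ g : K ≃ₐ[F] K, ∀ x, g (σ x) = τ x := by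
  have : IsGalois F K := IsGalois.tower_top_of_isGalois ℚ F K
  let e1 : M ≃ₐ[F] σ.fieldRange := AlgEquiv.ofInjectiveField σ
  let e2 : M ≃ₐ[F] τ.fieldRange := AlgEquiv.ofInjectiveField τ
  refine ⟨(e1.symm.trans e2).liftNormal K, fun x => ?_⟩
  have h := AlgEquiv.liftNormal_commutes (e1.symm.trans e2) K (e1 x)
  rw [AlgEquiv.trans_apply, AlgEquiv.symm_apply_apply] at h
  exact h

/-- **SEM3** -/
theorem sem3 : S_SEM3 := by
  intro C F K _ _ _ _ _ _ _ L _ _ _ h3 V _ _ _ cd hV
  classical
  have h2 : ∀ v : V, v + v = 0 := by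
    intro v
    apply hV.inj
    rw [map_add, map_zero]
    funext c ι
    exact CharTwo.add_self_eq_zero _
  have hres : ∀ (c : C) (v : V), ∃ u : V, ∀ c' ι, cd u c' ι = if c' = c then cd v c' ι else 0 := by
    intro c v
    obtain ⟨u, hu⟩ := (hV.im (fun c' ι => if c' = c then cd v c' ι else 0)).2 (by
      intro c'
      by_cases hp : c' = c
      · rw [← (hV.im (cd v)).1 ⟨v, rfl⟩ c']
        refine Finset.sum_congr rfl (fun ι _ => ?_)
        rw [if_pos hp]
      · refine Finset.sum_eq_zero (fun ι _ => ?_)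
        rw [if_neg hp])
    exact ⟨u, fun c' ι => by rw [hu]⟩
  let U : C → AddSubgroup V := fun c =>
    { carrier := {v | ∀ c', c' ≠ c → ∀ ι, cd v c' ι = 0}
      zero_mem' := by
        intro c' _ ι
        rw [map_zero]
        rfl
      add_mem' := by
        intro a b ha hb c' hc' ι
        rw [map_add]
        show cd a c' ι + cd b c' ι = 0
        rw [ha c' hc' ι, hb c' hc' ι, add_zero]
      neg_mem' := by
        intro a ha c' hc' ι
        rw [map_neg]
        show - cd a c' ι = 0
        rw [ha c' hc' ι, neg_zero] }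
  have hcd : ∀ (g : K ≃ₐ[F] K) (v : V) c ι, cd (g • v) c ι = cd v c (cp g⁻¹ ι) := by
    intro g v c ι
    have h := hV.eqv g v c (cp g⁻¹ ι)
    have h4 : cp g (cp g⁻¹ ι) = ι := by
      ext x
      show g (g⁻¹ (ι x)) = ι x
      exact AlgEquiv.apply_symm_apply g _
    rw [h4] at h
    exact h
  have hU : ∀ c, GSt (K ≃ₐ[F] K) (U c) := fun c g v hv c' hc' ι => by
    rw [hcd]
    exact hv c' hc' _
  let cd' : V →+ ((Σ c : C, (L c →ₐ[F] K)) → ZMod 2) :=
    { toFun := fun v j => cd v j.1 j.2
      map_zero' := by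
        funext j
        rw [map_zero]
        rfl
      map_add' := by
        intro a b
        funext j
        rw [map_add]
        rfl }
  have hinj : Function.Injective cd' := by
    intro v w hvw
    apply hV.inj
    funext c ι
    exact congrFun hvw ⟨c, ι⟩
  refine Pool.Agent.Q166.ESG.sumg (K ≃ₐ[F] K) V C U h2 hU ?_ ?_
  · intro c W hWU hW
    have h6 : W = ⊥ ∨ W = U c := by
      refine simple3 (G := K ≃ₐ[F] K) (fun g (j : Σ c : C, (L c →ₐ[F] K)) => ⟨j.1, cp g j.2⟩) cd' hinj
        (fun g v j => hV.eqv g v j.1 j.2)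
        ((univ : Finset (L c →ₐ[F] K)).map ⟨fun ι => ⟨c, ι⟩, fun ι ι' h => eq_of_heq (Sigma.mk.inj h).2⟩)
        ?_ ?_ (U c) ?_ ?_
        W hWU hW
      · rw [card_map, card_univ]
        exact h3 c
      · intro i hi j hj
        rw [mem_map] at hi hj
        obtain ⟨i, -, rfl⟩ := hi
        obtain ⟨j, -, rfl⟩ := hj
        obtain ⟨g, hg⟩ := exists_autF i j
        refine ⟨g, ?_⟩
        have h7 : cp g i = j := AlgHom.ext hg
        show (⟨c, cp g i⟩ : Σ c : C, (L c →ₐ[F] K)) = ⟨c, j⟩
        rw [h7]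
      · rintro v hv ⟨c', ι⟩ hι
        refine hv c' (fun h => hι ?_) ι
        subst h
        rw [mem_map]
        exact ⟨ι, mem_univ _, rfl⟩
      · intro v hv
        rw [sum_map]
        exact (hV.im (cd v)).1 ⟨v, rfl⟩ c
    rcases h6 with h6 | h6
    · exact ⟨U c, le_rfl, hU c, by rw [h6]; simp, by rw [h6]; simp⟩
    · refine ⟨⊥, bot_le, ?_, by simp, by rw [h6]; simp⟩
      intro g v hv
      rw [AddSubgroup.mem_bot] at hv
      rw [hv, smul_zero]
      exact AddSubgroup.zero_mem _
  · rw [eq_top_iff]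
    intro v _
    choose u hu using fun c : C => hres c v
    have h6 : v = ∑ c : C, u c := by
      apply hV.inj
      rw [map_sum]
      funext c ι
      rw [Finset.sum_apply, Finset.sum_apply, Finset.sum_congr rfl (fun c' _ => hu c' c ι),
        Finset.sum_ite_eq]
      simp
    rw [h6]
    refine AddSubgroup.sum_mem _ (fun c _ => ?_)
    refine (le_iSup U c) ?_
    intro c' hc' ι
    rw [hu, if_neg hc']

end Pool.Agent.Q190.ESN
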