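import Pool.Agent.Q161.ESN.Stm3
import Pool.Agent.Q261.ESG.Nrm
import Pool.Agent.Q285.ESG.Qag

/-!
# Project ESN (helper161): tools (adapted from `Pool/Agent/Q285/ESG/Base.lean`)
-/

set_option autoImplicit false
set_option linter.unusedSectionVars false

namespace Pool.Agent.Q190.ESN

open Polynomial NumberField IsDedekindDomain Finset
open Pool.Agent.Q51.EL (Abv Par)
open Pool.Agent.Q161.ESN
open Pool.Agent.Q237.ESM (bl val_bl abv_bl mem_bl coe_ne' val_l exp_ne_one)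
open Pool.Agent.Q285.ESG (zmod2 par_zero par_one)

/-- existence of the primes above `v` -/
theorem exists_above {M K : Type} [Field M] [NumberField M] [Field K] [NumberField K] (em : M →+* K)
    (v : HeightOneSpectrum (𝓞 M)) {l : ℕ} (hl : l.Prime) (hv : Abv v l) :
    ∃ (w : HeightOneSpectrum (𝓞 K)) (hw : Abv w l), bl em w hl hw = v := by
  let _ : Algebra M K := em.toAlgebra
  have hmax : v.asIdeal.IsMaximal := v.isMaximal
  obtain ⟨Q, hQ, hQ2⟩ := Ideal.exists_maximal_ideal_liesOver_of_isIntegral (S := 𝓞 K) v.asIdeal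
  have hmem : ∀ x : 𝓞 M, x ∈ v.asIdeal ↔ RingOfIntegers.mapRingHom em x ∈ Q := fun x => by
    have h := hQ2.over
    rw [h]
    rfl
  have hl' : (l : 𝓞 K) ∈ Q := by
    have h := (hmem (l : 𝓞 M)).1 hv
    rwa [map_natCast] at h
  have hne : Q ≠ ⊥ := by
    intro h
    rw [h, Ideal.mem_bot] at hl'
    exact hl.ne_zero (Nat.cast_eq_zero.1 hl')
  refine ⟨⟨Q, hQ.isPrime, hne⟩, hl', ?_⟩
  apply HeightOneSpectrum.ext
  ext x
  exact (hmem x).symm

section one

variable {F K L : Type} [Field F] [NumberField F] [Field K] [NumberField K] [Algebra F K] [Field L]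
  [NumberField L] [Algebra F L]

theorem cp_apply (g : K ≃ₐ[F] K) (ι : L →ₐ[F] K) (x : L) : cp g ι x = g (ι x) := rfl

theorem gal_rangeF [IsGalois ℚ K] (ι0 : L →ₐ[F] K) (x : K)
    (h : ∀ g : K ≃ₐ[F] K, cp g ι0 = ι0 → g x = x) : ∃ y, ι0 y = x := by
  let _ : Algebra L K := (ι0 : L →+* K).toAlgebra
  have : IsScalarTower F L K := IsScalarTower.of_algebraMap_eq fun r => (ι0.commutes r).symm
  have : IsGalois L K := IsGalois.tower_top_of_isGalois ℚ L K
  have h1 := (IsGalois.mem_range_algebraMap_iff_fixed (F := L) (E := K) x).2 (fun f => by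
    have h2 := h (AlgEquiv.restrictScalars F f) (AlgHom.ext fun y => f.commutes y)
    exact h2)
  exact h1

theorem exists_cp [IsGalois ℚ K] (ι ι' : L →ₐ[F] K) : ∃ g : K ≃ₐ[F] K, cp g ι = ι' := by
  have : IsGalois F K := IsGalois.tower_top_of_isGalois ℚ F K
  let e1 : L ≃ₐ[F] ι.fieldRange := AlgEquiv.ofInjectiveField ι
  let e2 : L ≃ₐ[F] ι'.fieldRange := AlgEquiv.ofInjectiveField ι'
  refine ⟨(e1.symm.trans e2).liftNormal K, AlgHom.ext fun x => ?_⟩
  have h := AlgEquiv.liftNormal_commutes (e1.symm.trans e2) K (e1 x)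
  rw [AlgEquiv.trans_apply, AlgEquiv.symm_apply_apply] at h
  exact h

end one

section

variable {C F K : Type} [Field F] [NumberField F] [Field K] [NumberField K] [Algebra F K]
  {L : C → Type} [∀ c, Field (L c)] [∀ c, NumberField (L c)] [∀ c, Algebra F (L c)]
  {V : Type} [AddCommGroup V] [DistribMulAction (K ≃ₐ[F] K) V]
  {th : (c : C) → 𝓞 (L c)} {cd : V →+ ((c : C) → (L c →ₐ[F] K) → ZMod 2)}

/-- the type of a prime is unique -/
theorem tpg_unique (hV : VB cd) {α : (c : C) → 𝓞 (L c)} {w : HeightOneSpectrum (𝓞 K)} {t t' : V}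
    (h : TpG cd α w t) (h' : TpG cd α w t') : t = t' := by
  apply hV.inj
  funext c ι
  rcases zmod2 (cd t c ι) with h1 | h1 <;> rcases zmod2 (cd t' c ι) with h2 | h2
  · rw [h1, h2]
  · have h3 := (h c ι).1 h1
    rw [(h' c ι).2 h2] at h3
    exact (exp_ne_one h3).elim
  · have h3 := (h' c ι).1 h2
    rw [(h c ι).2 h1] at h3
    exact (exp_ne_one h3).elim
  · rw [h1, h2]

/-- the type of a prime -/
theorem tpg_exists (hV : VB cd) {B : ℕ} {D : 𝓞 F} {α : (c : C) → 𝓞 (L c)}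
    (hG : ∀ c, Gd1 F K (th c) B D (α c : L c)) {l : ℕ} (hl : l.Prime) (hlB : ¬ l ∣ B)
    {w : HeightOneSpectrum (𝓞 K)} (hw : Abv w l) (hD : iO F K D ∈ w.asIdeal)
    (hn : ∀ (c : C) (ι : L c →ₐ[F] K),
      w.valuation K (ι (α c : L c)) = 1 ∨ w.valuation K (ι (α c : L c)) = WithZero.exp (-1 : ℤ)) :
    ∃ t : V, TpG cd α w t := by
  classical
  choose e he1 he3 _ using fun c => (hG c).odd l hl hlB w hw hD
  obtain ⟨t, ht⟩ := (hV.im e).2 he1
  refine ⟨t, fun c ι => ⟨fun h => ?_, fun h => ?_⟩⟩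
  · rw [ht] at h
    exact par_zero ((he3 c ι).1 h) (hn c ι)
  · rw [ht] at h
    exact par_one ((he3 c ι).2 h) (hn c ι)

theorem val_even {B : ℕ} {D : 𝓞 F} {α : (c : C) → 𝓞 (L c)} {z : V → 𝓞 K}
    (hR : RG0 th cd B D α z) {l : ℕ} (hl : l.Prime) (hlB : ¬ l ∣ B)
    {w : HeightOneSpectrum (𝓞 K)} (hw : Abv w l) (hD : iO F K D ∉ w.asIdeal) (c : C)
    (ι : L c →ₐ[F] K) : w.valuation K (ι (α c : L c)) = 1 :=
  par_zero ((hR.gd c).even l hl hlB w hw hD ι) (hR.nrm l hl hlB w hw c ι)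

/-- the valuations of the products of the `z t` -/
theorem val_prodG [Fintype V] {B : ℕ} {D : 𝓞 F} {α : (c : C) → 𝓞 (L c)}
    {z : V → 𝓞 K} (hR : RG0 th cd B D α z) {l : ℕ} (hl : l.Prime) (hlB : ¬ l ∣ B)
    {w : HeightOneSpectrum (𝓞 K)} (hw : Abv w l) (hD : iO F K D ∈ w.asIdeal) {t0 : V}
    (h0 : TpG cd α w t0) (hu : ∀ t, TpG cd α w t → t = t0) (P : V → Prop) [DecidablePred P] :
    w.valuation K (∏ t ∈ univ.filter P, (z t : K)) = if P t0 then WithZero.exp (-1 : ℤ) else 1 := by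
  classical
  rw [map_prod]
  have h1 : ∀ t ∈ univ.filter P, w.valuation K (z t : K) =
      if t0 = t then WithZero.exp (-1 : ℤ) else 1 := by
    intro t _
    split_ifs with h
    · rw [← h]
      exact (hR.typ l hl hlB w hw t0).1 ⟨hD, h0⟩
    · exact (hR.typ l hl hlB w hw t).2 fun h2 => h (hu t h2.2).symm
  rw [prod_congr rfl h1, prod_ite_eq]
  simp only [mem_filter, mem_univ, true_and]

theorem val_prodG_one [Fintype V] {B : ℕ} {D : 𝓞 F} {α : (c : C) → 𝓞 (L c)}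
    {z : V → 𝓞 K} (hR : RG0 th cd B D α z) {l : ℕ} (hl : l.Prime) (hlB : ¬ l ∣ B)
    {w : HeightOneSpectrum (𝓞 K)} (hw : Abv w l) (hD : iO F K D ∉ w.asIdeal) (P : V → Prop)
    [DecidablePred P] :
    w.valuation K (∏ t ∈ univ.filter P, (z t : K)) = 1 := by
  rw [map_prod]
  exact prod_eq_one fun t _ => (hR.typ l hl hlB w hw t).2 fun h2 => hD h2.1

theorem prod_smul [Fintype V] {z : V → 𝓞 K} (hz : Eqv F z) (g : K ≃ₐ[F] K) (P Q : V → Prop)
    [DecidablePred P] [DecidablePred Q] (h : ∀ t, P t ↔ Q (g • t)) :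
    g (∏ t ∈ univ.filter P, (z t : K)) = ∏ t ∈ univ.filter Q, (z t : K) := by
  rw [map_prod]
  refine prod_bij (fun t _ => g • t) ?_ ?_ ?_ ?_
  · intro t ht
    rw [mem_filter] at ht ⊢
    exact ⟨mem_univ _, (h t).1 ht.2⟩
  · intro a _ b _ h
    exact MulAction.injective g h
  · intro s hs
    rw [mem_filter] at hs
    refine ⟨g⁻¹ • s, ?_, smul_inv_smul g s⟩
    rw [mem_filter]
    refine ⟨mem_univ _, ?_⟩
    rw [h, smul_inv_smul]
    exact hs.2
  · intro t _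
    exact (hz g t).symm

end

/-- **QAG** -/
theorem qag : S_SUF → S_QAG := by
  classical
  intro hSUF C F K _ _ _ _ _ _ _ L _ _ _ th hD V _ _ _ cd hV
  obtain ⟨B1, hB1, hB⟩ := Pool.Agent.Q224.ESM.frx K
  refine ⟨B1, hB1, fun B hBB hB0 => ?_⟩
  choose Q hQ0 hQ using fun c => hSUF (L c) B hB0
  refine ⟨Q, fun D α z hR c => ?_⟩
  obtain ⟨ι0⟩ : Nonempty (L c →ₐ[F] K) := Fintype.card_pos_iff.1 (hD c).odd.pos
  set Ak : (L c →ₐ[F] K) → K := fun ι => ι (α c : L c) *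
    (∏ t ∈ univ.filter (fun t => cd t c ι = 1), (z t : K)) with hAk
  have hgA : ∀ (g : K ≃ₐ[F] K) (ι : L c →ₐ[F] K), g (Ak ι) = Ak (cp g ι) := by
    intro g ι
    rw [hAk]
    simp only
    rw [map_mul, prod_smul hR.eqv g (fun t => cd t c ι = 1) (fun t => cd t c (cp g ι) = 1) fun t => by
      rw [hV.eqv]]
    rfl
  obtain ⟨A, hA⟩ := gal_rangeF ι0 (Ak ι0) (fun g hg => by rw [hgA, hg])
  have hAA : ∀ ι, ι A = Ak ι := by
    intro ι
    obtain ⟨g, rfl⟩ := exists_cp ι0 ι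
    rw [← hgA, ← hA]
    rfl
  have hA0 : A ≠ 0 := by
    intro h
    rw [h, map_zero] at hA
    have h1 : Ak ι0 ≠ 0 := by
      refine mul_ne_zero ?_ (prod_ne_zero_iff.2 fun t _ => coe_ne' (hR.ne t))
      rw [Ne, map_eq_zero]
      exact coe_ne' (hR.a0 c)
    exact h1 hA.symm
  obtain ⟨a, ha, q, hq, haq⟩ := hQ c A hA0 (by
    intro v hv
    obtain ⟨l, _, hl, hlv, -, -⟩ := Pool.Agent.Q239.EL.below v
    have hlB : ¬ l ∣ B := by
      rintro ⟨c, hc⟩
      apply hv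
      rw [hc, Nat.cast_mul]
      exact v.asIdeal.mul_mem_right _ hlv
    obtain ⟨hsq, -, -⟩ := hB l hl fun h => hlB (h.trans hBB)
    obtain ⟨w, hw, rfl⟩ := exists_above (ι0 : L c →+* K) v hl hlv
    have h1 : (bl (ι0 : L c →+* K) w hl hw).valuation (L c) A = w.valuation K (Ak ι0) := by
      rw [← val_bl (ι0 : L c →+* K) w hl hw hsq, ← hAA]
      rfl
    unfold Par
    rw [h1, hAk]
    simp only
    rw [map_mul]
    by_cases hwD : iO F K D ∈ w.asIdeal
    · obtain ⟨t0, ht0⟩ := tpg_exists hV hR.gd hl hlB hw hwD (hR.nrm l hl hlB w hw)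
      rw [val_prodG hR hl hlB hw hwD ht0 fun t ht => tpg_unique hV ht ht0]
      rcases zmod2 (cd t0 c ι0) with h2 | h2
      · rw [if_neg (by rw [h2]; decide), mul_one, (ht0 c ι0).1 h2]
        exact ⟨0, by simp⟩
      · rw [if_pos h2, (ht0 c ι0).2 h2, ← WithZero.exp_add]
        exact ⟨-1, by norm_num⟩
    · rw [val_even hR hl hlB hw hwD c ι0, val_prodG_one hR hl hlB hw hwD, one_mul]
      exact ⟨0, by simp⟩)
  refine ⟨a, ha, q, hq, fun ι => ?_⟩
  have h1 := hAA ι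
  rw [haq, map_mul, map_pow] at h1
  exact h1.symm

/-- **QDG** -/
theorem qdg : S_SUF → S_QDG := by
  classical
  intro hSUF C F K _ _ _ _ _ _ _ L _ _ _ th hD V _ _ _ cd hV
  have : IsGalois F K := IsGalois.tower_top_of_isGalois ℚ F K
  obtain ⟨B1, hB1, hB⟩ := Pool.Agent.Q224.ESM.frx K
  refine ⟨B1, hB1, fun B hBB hB0 => ?_⟩
  obtain ⟨Q, -, hQ⟩ := hSUF F B hB0
  refine ⟨Q, fun D α z hR => ?_⟩
  obtain ⟨M, hM⟩ : ∃ M : K, M = algebraMap F K (D : F) * ∏ t ∈ univ.filter (fun _ => True), (z t : K) :=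
    ⟨_, rfl⟩
  have hD0 : (D : F) ≠ 0 := coe_ne' hR.sq.1
  have hM0 : M ≠ 0 := by
    rw [hM]
    refine mul_ne_zero ?_ (prod_ne_zero_iff.2 fun t _ => coe_ne' (hR.ne t))
    rw [Ne, map_eq_zero]
    exact hD0
  have hfix : ∀ g : K ≃ₐ[F] K, g M = M := by
    intro g
    rw [hM, map_mul, prod_smul hR.eqv g (fun _ => True) (fun _ => True) fun t => Iff.rfl,
      AlgEquiv.commutes]
  obtain ⟨m, hm⟩ := (IsGalois.mem_range_algebraMap_iff_fixed (F := F) (E := K) M).2 hfix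
  have hm0 : m ≠ 0 := by
    rintro rfl
    rw [map_zero] at hm
    exact hM0 hm.symm
  obtain ⟨μ, hμ, s, hs, hms⟩ := hQ m hm0 (by
    intro v hv
    obtain ⟨l, _, hl, hlv, -, -⟩ := Pool.Agent.Q239.EL.below v
    have hlB : ¬ l ∣ B := by
      rintro ⟨c, hc⟩
      apply hv
      rw [hc, Nat.cast_mul]
      exact v.asIdeal.mul_mem_right _ hlv
    obtain ⟨hsq, -, -⟩ := hB l hl fun h => hlB (h.trans hBB)
    obtain ⟨w, hw, rfl⟩ := exists_above (algebraMap F K) v hl hlv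
    have h1 : (bl (algebraMap F K) w hl hw).valuation F m =
        (bl (algebraMap F K) w hl hw).valuation F (D : F) *
          w.valuation K (∏ t ∈ univ.filter (fun _ => True), (z t : K)) := by
      rw [← val_bl (algebraMap F K) w hl hw hsq, hm, hM, map_mul,
        val_bl (algebraMap F K) w hl hw hsq]
    unfold Par
    rw [h1]
    by_cases hwD : iO F K D ∈ w.asIdeal
    · obtain ⟨t0, ht0⟩ := tpg_exists hV hR.gd hl hlB hw hwD (hR.nrm l hl hlB w hw)
      rw [val_prodG hR hl hlB hw hwD ht0 (fun t ht => tpg_unique hV ht ht0), if_pos trivial]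
      have h2 := (HeightOneSpectrum.valuation_lt_one_iff_mem (K := F) (bl (algebraMap F K) w hl hw) D).2 hwD
      rcases hR.sq.2 l hl hlB (bl (algebraMap F K) w hl hw) hlv with h3 | h3
      · exact absurd h3 h2.ne
      · rw [h3, ← WithZero.exp_add]
        exact ⟨-1, by norm_num⟩
    · rw [val_prodG_one hR hl hlB hw hwD, mul_one,
        Pool.Agent.Q261.ESG.val_one' (v := bl (algebraMap F K) w hl hw) hwD]
      exact ⟨0, by simp⟩)
  refine ⟨μ, hμ, s, hs, ?_⟩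
  rw [← hms, hm, hM, filter_true]

/-- **NRM** -/
theorem nrm : S_NRM := by
  classical
  intro F K L _ _ _ _ _ _ _ _ _ th
  obtain ⟨B0, C, hB0, hC, hcl⟩ := Pool.Agent.Q239.EL.cl L
  obtain ⟨B2, hB2, hfr⟩ := Pool.Agent.Q224.ESM.frx K
  refine ⟨2 * B0 * B2, mul_ne_zero (mul_ne_zero two_ne_zero hB0) hB2, fun B hB D δ hδ hG => ?_⟩
  obtain ⟨η, α, hη, hα, hval, -⟩ := hcl δ (Pool.Agent.Q261.ESG.par_finite hδ).toFinset hδ (by
    intro v _
    refine ⟨fun hv => ?_, fun hv => ?_⟩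
    · rw [Set.Finite.mem_toFinset] at hv
      exact hv
    · by_contra h
      apply hv
      rw [Set.Finite.mem_toFinset]
      exact Pool.Agent.Q14.ESM.par_or v hδ h)
  have hα0 : α ≠ 0 := by
    rintro rfl
    have h1 : (0 : L) = δ * η ^ 2 := by rw [← hα]; simp
    exact mul_ne_zero hδ (pow_ne_zero 2 hη) h1.symm
  have hdv : ∀ l : ℕ, ¬ l ∣ B → l ≠ 2 ∧ ¬ l ∣ B0 ∧ ¬ l ∣ B2 := by
    intro l hlB
    refine ⟨?_, fun h => hlB (h.trans ?_), fun h => hlB (h.trans ?_)⟩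
    · rintro rfl
      exact hlB (((Dvd.intro _ rfl).trans (Dvd.intro _ rfl)).trans hB)
    · exact ((Dvd.intro_left _ rfl).trans (Dvd.intro _ rfl)).trans hB
    · exact (Dvd.intro_left _ rfl).trans hB
  have hιη : ∀ ι : L →ₐ[F] K, ι η ≠ 0 := fun ι => by rw [Ne, map_eq_zero]; exact hη
  refine ⟨α, η, hα0, hη, hα, ?_, ?_⟩
  · rw [hα]
    refine ⟨fun l hl hlB w hw hD ι => ?_, fun l hl hlB w hw hD => ?_⟩
    · rw [map_mul, map_pow]
      exact Pool.Agent.Q239.EL.par_mul_sq (hιη ι) (hG.even l hl hlB w hw hD ι)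
    · obtain ⟨hl2, -, hlB2⟩ := hdv l hlB
      obtain ⟨hsq, -, -⟩ := hfr l hl hlB2
      obtain ⟨e, h1, h3, h4⟩ := hG.odd l hl hlB w hw hD
      refine ⟨e, h1, fun ι => ⟨fun h => ?_, fun h => ?_⟩, fun φ hφ => ⟨(h4 φ hφ).1, fun A hA => ?_⟩⟩
      · rw [map_mul, map_pow]
        exact Pool.Agent.Q239.EL.par_mul_sq (hιη ι) ((h3 ι).1 h)
      · rw [map_mul, map_pow]
        exact Pool.Agent.Q239.EL.par_mul_sq (hιη ι) ((h3 ι).2 h)
      · have hy0 : ∏ ι ∈ A, ι η ≠ 0 := prod_ne_zero_iff.2 fun ι _ => hιη ι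
        have hy : φ (∏ ι ∈ A, ι η) = ∏ ι ∈ A, ι η := by
          rw [map_prod]
          refine prod_bij (fun ι _ => cp φ ι) (fun ι hι => (hA ι).1 hι) (fun ι _ ι' _ h => ?_)
            (fun ι hι => ?_) (fun ι _ => rfl)
          · apply AlgHom.ext
            intro x
            have h5 := congrArg (fun j : L →ₐ[F] K => j x) h
            exact φ.injective h5
          · refine ⟨cp φ.symm ι, ?_, ?_⟩
            · rw [hA]
              have h5 : cp φ (cp φ.symm ι) = ι := AlgHom.ext fun x => φ.apply_symm_apply _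
              rw [h5]
              exact hι
            · exact AlgHom.ext fun x => φ.apply_symm_apply _
        have h5 := Pool.Agent.Q261.ESG.qr_mul hl hl2 hsq hw (F := φ.restrictScalars ℚ)
          (fun x y hxy => hφ x y hxy) hy0 hy ((h4 φ hφ).2 A hA)
        rw [← prod_pow, ← prod_mul_distrib] at h5
        have h6 : ∏ ι ∈ A, ι (δ * η ^ 2) * (if e ι = 1 then algebraMap F K (D : F) else 1) * uu th e ι =
            ∏ ι ∈ A, ι δ * (if e ι = 1 then algebraMap F K (D : F) else 1) * uu th e ι * ι η ^ 2 := by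
          refine prod_congr rfl fun ι _ => ?_
          rw [map_mul, map_pow]
          ring
        rw [h6]
        exact h5
  · intro l hl hlB w hw ι
    obtain ⟨hl2, hlB0, hlB2⟩ := hdv l hlB
    obtain ⟨hsq, -, -⟩ := hfr l hl hlB2
    have h0 : w.valuation K (ι (α : L)) = (bl (ι : L →+* K) w hl hw).valuation L (α : L) :=
      val_bl (ι : L →+* K) w hl hw hsq (α : L)
    rw [h0]
    have h1 := hval (bl (ι : L →+* K) w hl hw)
      (Pool.Agent.Q261.ESG.nat_notMem hl (abv_bl (ι : L →+* K) w hl hw) hlB0)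
    by_cases h : bl (ι : L →+* K) w hl hw ∈ (Pool.Agent.Q261.ESG.par_finite hδ).toFinset
    · exact Or.inr (h1.1 h)
    · exact Or.inl (h1.2 h)

end Pool.Agent.Q190.ESN
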